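import Pool.Agent.H28.N6.Targets

/-!
# Row DAT: a locally compact ultrametric field has normalised data
-/

set_option autoImplicit false

open MeasureTheory Pool.Agent.H28.N6

namespace Pool.Agent.H1.N6D

/-- a finite cover of the ring of integers by disjoint open unit balls -/
theorem exists_cover (F : Type) [NontriviallyNormedField F] [IsUltrametricDist F]
    [ProperSpace F] : ∃ S : Finset F, (Metric.closedBall (0 : F) 1 = ⋃ s ∈ S, Metric.ball s 1) ∧
      (S : Set F).PairwiseDisjoint (fun s => Metric.ball s 1) := by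
  classical
  have hex : ∃ n : ℕ, ∃ S : Finset F, S.card = n ∧ (∀ s ∈ S, ‖s‖ ≤ 1) ∧
      ∀ x : F, ‖x‖ ≤ 1 → ∃ s ∈ S, x ∈ Metric.ball s 1 := by
    obtain ⟨t, ht1, ht2, ht3⟩ := (isCompact_closedBall (0 : F) 1).elim_finite_subcover_image
      (b := Metric.closedBall (0 : F) 1) (c := fun s => Metric.ball s 1)
      (fun s _ => Metric.isOpen_ball) (fun x hx => Set.mem_biUnion hx (Metric.mem_ball_self one_pos))
    refine ⟨_, ht2.toFinset, rfl, fun s hs => ?_, fun x hx => ?_⟩
    · exact mem_closedBall_zero_iff.1 (ht1 (ht2.mem_toFinset.1 hs))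
    · obtain ⟨s, hs, h⟩ := Set.mem_iUnion₂.1 (ht3 (mem_closedBall_zero_iff.2 hx))
      exact ⟨s, ht2.mem_toFinset.2 hs, h⟩
  obtain ⟨S, hS, hS1, hS2⟩ := Nat.find_spec hex
  refine ⟨S, ?_, ?_⟩
  · ext x
    rw [Set.mem_iUnion₂]
    constructor
    · intro hx
      obtain ⟨s, hs, h⟩ := hS2 x (mem_closedBall_zero_iff.1 hx)
      exact ⟨s, hs, h⟩
    · rintro ⟨s, hs, h⟩
      rw [mem_closedBall_zero_iff]
      have h1 : x = (x - s) + s := by abel
      rw [h1]
      refine (IsUltrametricDist.norm_add_le_max _ _).trans (max_le ?_ (hS1 s hs))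
      rw [← dist_eq_norm]
      exact (Metric.mem_ball.1 h).le
  · intro s hs s' hs' hne
    by_contra hd
    rw [Function.onFun, Set.not_disjoint_iff] at hd
    obtain ⟨y, hy1, hy2⟩ := hd
    have h3 : Metric.ball s 1 = Metric.ball s' 1 :=
      (IsUltrametricDist.ball_eq_of_mem hy1).trans (IsUltrametricDist.ball_eq_of_mem hy2).symm
    have h4 : (S.erase s').card < Nat.find hex := by
      rw [← hS]
      exact Finset.card_erase_lt_of_mem hs'
    refine Nat.find_min hex h4 ⟨S.erase s', rfl, fun t ht => hS1 t (Finset.mem_of_mem_erase ht),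
      fun x hx => ?_⟩
    obtain ⟨t, ht, h⟩ := hS2 x hx
    by_cases htt : t = s'
    · rw [htt, ← h3] at h
      exact ⟨s, Finset.mem_erase.2 ⟨hne, hs⟩, h⟩
    · exact ⟨t, Finset.mem_erase.2 ⟨htt, ht⟩, h⟩

theorem pf_DAT : T_DAT := by
  intro F _ _ _ _ _
  classical
  -- the Haar measure
  let K₀ : TopologicalSpace.PositiveCompacts F :=
    ⟨⟨Metric.closedBall (0 : F) 1, isCompact_closedBall 0 1⟩, by
      refine ⟨0, ?_⟩
      change (0 : F) ∈ interior (Metric.closedBall (0 : F) 1)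
      rw [(IsUltrametricDist.isOpen_closedBall (0 : F) one_ne_zero).interior_eq]
      exact Metric.mem_closedBall_self zero_le_one⟩
  let μ : Measure F := Measure.addHaarMeasure K₀
  haveI hμ : μ.IsAddHaarMeasure := Measure.isAddHaarMeasure_addHaarMeasure K₀
  have hone : μ (Metric.closedBall (0 : F) 1) = 1 := Measure.addHaarMeasure_self
  -- the uniformizer
  have hBc : IsCompact (Metric.ball (0 : F) 1) :=
    Metric.isCompact_of_isClosed_isBounded (IsUltrametricDist.isClosed_ball 0 1)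
      Metric.isBounded_ball
  obtain ⟨p, hp, hmax⟩ := hBc.exists_isMaxOn (f := fun x : F => ‖x‖)
    ⟨0, Metric.mem_ball_self one_pos⟩ continuous_norm.continuousOn
  have hp1 : ‖p‖ < 1 := mem_ball_zero_iff.1 hp
  have hgen : ∀ x : F, ‖x‖ < 1 → ‖x‖ ≤ ‖p‖ := fun x hx => hmax (mem_ball_zero_iff.2 hx)
  have hp0 : p ≠ 0 := by
    rintro rfl
    obtain ⟨x, hx0, hx1⟩ := NormedField.exists_norm_lt_one F
    have := hgen x hx1
    rw [norm_zero] at this
    linarith
  -- the number of classes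
  obtain ⟨S, hcov, hdis⟩ := exists_cover F
  have hball : ∀ s : F, μ (Metric.ball s 1) = μ (Metric.ball 0 1) := by
    intro s
    have h1 : (fun x => s + x) ⁻¹' Metric.ball s 1 = Metric.ball 0 1 := by
      ext x
      simp [dist_eq_norm]
    rw [← h1, measure_preimage_add]
  have hsum : (1 : ENNReal) = S.card * μ (Metric.ball 0 1) := by
    rw [← hone, hcov, measure_biUnion_finset hdis fun s _ => Metric.isOpen_ball.measurableSet]
    rw [Finset.sum_congr rfl fun s _ => hball s, Finset.sum_const, nsmul_eq_mul]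
  have hq : 2 ≤ S.card := by
    by_contra hlt
    have h1 : S.card ≤ 1 := by omega
    have h2 : ∀ x : F, ‖x‖ ≤ 1 → ∃ s ∈ S, dist x s < 1 := by
      intro x hx
      have h3 : x ∈ Metric.closedBall (0 : F) 1 := mem_closedBall_zero_iff.2 hx
      rw [hcov, Set.mem_iUnion₂] at h3
      obtain ⟨s, hs, h⟩ := h3
      exact ⟨s, hs, h⟩
    obtain ⟨s, hs, h3⟩ := h2 0 (by simp)
    obtain ⟨s', hs', h4⟩ := h2 1 (by simp)
    rw [Finset.card_le_one.1 h1 s' hs' s hs] at h4
    have h5 : dist (0 : F) 1 ≤ max (dist 0 s) (dist s 1) := dist_triangle_max 0 s 1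
    rw [dist_comm s 1] at h5
    have h6 := h5.trans_lt (max_lt h3 h4)
    simp at h6
  refine ⟨⟨μ, p, S.card, hμ, ?_, hp0, hp1, hgen, hq, ?_⟩⟩
  · rw [← hone]
    congr 1
    ext x
    simp
  · have h1 : {x : F | ‖x‖ ≤ ‖p‖} = Metric.ball 0 1 := by
      ext x
      rw [mem_ball_zero_iff]
      exact ⟨fun h => lt_of_le_of_lt h hp1, hgen x⟩
    rw [h1]
    exact ENNReal.eq_inv_of_mul_eq_one_left (by rw [mul_comm]; exact hsum.symm)

end Pool.Agent.H1.N6D
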