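import Pool.Agent.H28.N6.Targets

/-!
# Row ONE: maps of one variable which multiply distances by a constant
-/

set_option autoImplicit false

open MeasureTheory Pool.Agent.H28.N6

namespace Pool.Agent.H1.N6D

/-- an isometry of a compact metric space into itself is onto -/
theorem isometry_surjective {X : Type} [MetricSpace X] [CompactSpace X] (f : X → X)
    (hf : Isometry f) : Function.Surjective f := by
  intro y
  by_contra hno
  push Not at hno
  have hcl : IsClosed (Set.range f) := (isCompact_range hf.continuous).isClosed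
  have hy : y ∉ Set.range f := fun ⟨x, hx⟩ => hno x hx
  obtain ⟨e, he, hball⟩ := Metric.isOpen_iff.1 hcl.isOpen_compl y hy
  have hit : ∀ (n : ℕ) (a b : X), dist (f^[n] a) (f^[n] b) = dist a b := by
    intro n
    induction n with
    | zero => intro a b; rfl
    | succ n ih =>
      intro a b
      rw [Function.iterate_succ_apply', Function.iterate_succ_apply', hf.dist_eq, ih]
  have hd : ∀ n k : ℕ, e ≤ dist (f^[n] y) (f^[n + (k + 1)] y) := by
    intro n k
    rw [Function.iterate_add_apply, hit, Function.iterate_succ_apply']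
    by_contra hlt
    have h1 : f (f^[k] y) ∈ Metric.ball y e := by
      rw [Metric.mem_ball, dist_comm]
      exact not_le.1 hlt
    exact hball h1 ⟨_, rfl⟩
  obtain ⟨a, -, φ, hφ, hlim⟩ := isCompact_univ.tendsto_subseq (x := fun n => f^[n] y)
    fun _ => Set.mem_univ _
  have hc := hlim.cauchySeq
  obtain ⟨N, hN⟩ := Metric.cauchySeq_iff.1 hc e he
  have h1 := hN N le_rfl (N + 1) (Nat.le_succ N)
  have h2 : φ N < φ (N + 1) := hφ (Nat.lt_succ_self N)
  obtain ⟨k, hk⟩ := Nat.exists_eq_add_of_lt h2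
  have h3 := hd (φ N) k
  simp only [Function.comp_apply] at h1
  rw [hk] at h1
  exact absurd h1 (not_lt.2 h3)

theorem pf_ONE (hBAL : T_BAL) (hNRM : T_NRM) : T_ONE := by
  intro F _ _ _ _ _ D ψ k m hψ hkm
  have hp : 0 < ‖D.p‖ := norm_pos_iff.2 D.p0
  have hpk : 0 < ‖D.p‖ ^ k := pow_pos hp k
  have h0 : ∀ s : F, ‖s‖ ≤ 1 → ‖ψ s - ψ 0‖ ≤ ‖D.p‖ ^ k := by
    intro s hs
    rw [hψ s 0 hs (by simp), sub_zero]
    exact mul_le_of_le_one_right hpk.le hs
  have hmk : ‖D.p‖ ^ m ≤ ‖D.p‖ ^ k := pow_le_pow_of_le_one hp.le D.p1.le hkm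
  split_ifs with hle
  · -- the zero of `ψ`
    have hb : ∀ s : F, ‖s‖ ≤ 1 → ‖ψ s‖ ≤ ‖D.p‖ ^ k := by
      intro s hs
      have h1 : ψ s = (ψ s - ψ 0) + ψ 0 := by abel
      rw [h1]
      exact (IsUltrametricDist.norm_add_le_max _ _).trans (max_le (h0 s hs) hle)
    let X := Metric.closedBall (0 : F) 1
    haveI : CompactSpace X := isCompact_iff_compactSpace.1 (isCompact_closedBall (0 : F) 1)
    let f : X → X := fun s => ⟨(D.p ^ k)⁻¹ * ψ s.1, by
      rw [mem_closedBall_zero_iff, norm_mul, norm_inv, norm_pow, inv_mul_le_iff₀ hpk, mul_one]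
      exact hb _ (mem_closedBall_zero_iff.1 s.2)⟩
    have hf : Isometry f := by
      refine Isometry.of_dist_eq fun s t => ?_
      rw [Subtype.dist_eq, Subtype.dist_eq, dist_eq_norm, dist_eq_norm]
      change ‖(D.p ^ k)⁻¹ * ψ s.1 - (D.p ^ k)⁻¹ * ψ t.1‖ = _
      rw [← mul_sub, norm_mul, norm_inv, norm_pow, hψ _ _ (mem_closedBall_zero_iff.1 s.2)
        (mem_closedBall_zero_iff.1 t.2), inv_mul_cancel_left₀ hpk.ne']
    obtain ⟨⟨s0, hs0⟩, hs⟩ := isometry_surjective f hf
      ⟨0, Metric.mem_closedBall_self zero_le_one⟩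
    have hψ0 : ψ s0 = 0 := by
      have h1 : (D.p ^ k)⁻¹ * ψ s0 = 0 := congrArg Subtype.val hs
      rcases mul_eq_zero.1 h1 with h2 | h2
      · exact absurd (inv_eq_zero.1 h2) (pow_ne_zero k D.p0)
      · exact h2
    rw [mem_closedBall_zero_iff] at hs0
    have hset : {s : F | ‖s‖ ≤ 1 ∧ ‖ψ s‖ ≤ ‖D.p‖ ^ m} =
        (fun s => -s0 + s) ⁻¹' {s : F | ‖s‖ ≤ ‖D.p‖ ^ (m - k)} := by
      ext s
      simp only [Set.mem_setOf_eq, Set.mem_preimage]
      have hpm : ‖D.p‖ ^ m = ‖D.p‖ ^ k * ‖D.p‖ ^ (m - k) := by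
        rw [← pow_add, Nat.add_sub_cancel' hkm]
      have he : -s0 + s = s - s0 := by abel
      rw [he]
      constructor
      · rintro ⟨h1, h2⟩
        have h3 := hψ s s0 h1 hs0
        rw [hψ0, sub_zero] at h3
        rw [h3, hpm] at h2
        exact le_of_mul_le_mul_left h2 hpk
      · intro h1
        have h2 : ‖s‖ ≤ 1 := by
          have h3 : s = (s - s0) + s0 := by abel
          rw [h3]
          refine (IsUltrametricDist.norm_add_le_max _ _).trans (max_le ?_ hs0)
          exact h1.trans (pow_le_one₀ hp.le D.p1.le)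
        have h3 := hψ s s0 h2 hs0
        rw [hψ0, sub_zero] at h3
        refine ⟨h2, ?_⟩
        rw [h3, hpm]
        exact mul_le_mul_of_nonneg_left h1 hpk.le
    haveI := D.haar
    rw [hset, measure_preimage_add]
    obtain ⟨hB, -⟩ := hBAL F D (Fin 1)
    have h1 := hB (m - k)
    simp only [Fintype.card_fin, pow_one] at h1
    rw [← h1]
    unfold vol
    have h2 := (measurePreserving_funUnique D.μ (Fin 1)).measure_preimage
      (s := {s : F | ‖s‖ ≤ ‖D.p‖ ^ (m - k)})
      (isClosed_le continuous_norm continuous_const).measurableSet.nullMeasurableSet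
    rw [← h2]
    congr 2
    ext z
    simp only [Set.mem_preimage, Set.mem_setOf_eq]
    constructor
    · intro h i
      rw [Subsingleton.elim i default]
      exact h
    · intro h
      exact h _
  · -- the empty case
    have hset : {s : F | ‖s‖ ≤ 1 ∧ ‖ψ s‖ ≤ ‖D.p‖ ^ m} = ∅ := by
      rw [Set.eq_empty_iff_forall_notMem]
      rintro s ⟨h1, h2⟩
      apply hle
      have h3 : ψ 0 = ψ s - (ψ s - ψ 0) := by abel
      rw [h3]
      have h4 : ‖ψ s - (ψ s - ψ 0)‖ ≤ max ‖ψ s‖ ‖ψ s - ψ 0‖ := by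
        rw [sub_eq_add_neg (ψ s) (ψ s - ψ 0), ← norm_neg (ψ s - ψ 0)]
        exact IsUltrametricDist.norm_add_le_max _ _
      exact h4.trans (max_le (h2.trans hmk) (h0 s h1))
    rw [hset]
    simp

end Pool.Agent.H1.N6D
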