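import Pool.Agent.H28.N6.Targets
import Pool.Agent.H28.N6.Lib

/-!
# Row VLC: the volumes are locally constant where the determinant is not zero
-/

set_option autoImplicit false

open MeasureTheory Pool.Agent.H28.N6 Matrix

namespace Pool.Agent.H1.N6D

section

variable {F : Type} [NontriviallyNormedField F] [IsUltrametricDist F]

theorem norm_det_le_one {ι : Type} [Fintype ι] [DecidableEq ι] (M : Matrix ι ι F)
    (hM : ∀ i j, ‖M i j‖ ≤ 1) : ‖M.det‖ ≤ 1 := by
  rw [Matrix.det_apply]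
  refine IsUltrametricDist.norm_sum_le_of_forall_le_of_nonneg zero_le_one fun σ _ => ?_
  have h1 : ‖∏ i, M (σ i) i‖ ≤ 1 := by
    rw [norm_prod]
    exact Finset.prod_le_one (fun i _ => norm_nonneg _) fun i _ => hM _ _
  rcases Int.units_eq_one_or (Equiv.Perm.sign σ) with h | h
  · rw [h, one_smul]
    exact h1
  · rw [h, Units.neg_smul, one_smul, norm_neg]
    exact h1

theorem norm_mulVec_le_one {ι : Type} [Fintype ι] (M : Matrix ι ι F)
    (hM : ∀ i j, ‖M i j‖ ≤ 1) (z : ι → F) (hz : ∀ i, ‖z i‖ ≤ 1) (i : ι) :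
    ‖(M *ᵥ z) i‖ ≤ 1 := by
  unfold Matrix.mulVec dotProduct
  refine IsUltrametricDist.norm_sum_le_of_forall_le_of_nonneg zero_le_one fun j _ => ?_
  rw [norm_mul]
  exact mul_le_one₀ (hM i j) (norm_nonneg _) (hz j)

theorem box_iff {ι : Type} [Fintype ι] [DecidableEq ι] (U : Matrix ι ι F) (hU : InGL U)
    (z : ι → F) : (∀ i, ‖z i‖ ≤ 1) ↔ ∀ i, ‖(U *ᵥ z) i‖ ≤ 1 := by
  refine ⟨norm_mulVec_le_one U hU.1 z, fun h i => ?_⟩
  have hdet : U.det ≠ 0 := by
    intro h0
    have := hU.2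
    rw [h0, norm_zero] at this
    exact zero_ne_one this
  have h1 : U.adjugate *ᵥ (U *ᵥ z) = U.det • z := by
    rw [Matrix.mulVec_mulVec, Matrix.adjugate_mul, Matrix.smul_mulVec, Matrix.one_mulVec]
  have h2 : ∀ i j, ‖U.adjugate i j‖ ≤ 1 := by
    intro i j
    rw [Matrix.adjugate_apply]
    refine norm_det_le_one _ fun k l => ?_
    rw [Matrix.updateRow_apply]
    split_ifs
    · rw [Pi.single_apply]
      split_ifs
      · rw [norm_one]
      · rw [norm_zero]; exact zero_le_one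
    · exact hU.1 k l
  have h3 := norm_mulVec_le_one U.adjugate h2 _ h i
  rw [h1, Pi.smul_apply, norm_smul, hU.2, one_mul] at h3
  exact h3

end

theorem pf_VLC (hLCO : T_LCO) (hGLO : T_GLO) : T_VLC := by
  intro F _ _ _ _ _ D h2 A B hA hB t ht
  have hG : (A + t • B)ᵀ = A + t • B := by
    rw [Matrix.transpose_add, Matrix.transpose_smul, hA, hB]
  obtain ⟨δ, hδ, hL⟩ := hLCO F h2 4 (A + t • B) hG ht
  let C : ℝ := 1 + ∑ i, ∑ j, ‖B i j‖
  have hC : ∀ i j, ‖B i j‖ < C := by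
    intro i j
    have h3 : ‖B i j‖ ≤ ∑ j', ‖B i j'‖ :=
      Finset.single_le_sum (f := fun j' => ‖B i j'‖) (fun _ _ => norm_nonneg _) (Finset.mem_univ j)
    have h4 : ∑ j', ‖B i j'‖ ≤ ∑ i', ∑ j', ‖B i' j'‖ :=
      Finset.single_le_sum (f := fun i' => ∑ j', ‖B i' j'‖)
        (fun _ _ => Finset.sum_nonneg fun _ _ => norm_nonneg _) (Finset.mem_univ i)
    change _ < 1 + _
    linarith
  have hC0 : 0 < C := lt_of_le_of_lt (norm_nonneg (B 0 0)) (hC 0 0)
  refine ⟨δ / C, div_pos hδ hC0, fun s hs => ?_⟩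
  have hG' : (A + s • B)ᵀ = A + s • B := by
    rw [Matrix.transpose_add, Matrix.transpose_smul, hA, hB]
  obtain ⟨U, hU, hUG⟩ := hL (A + s • B) hG' (fun i j => by
    have h3 : (A + s • B) i j - (A + t • B) i j = (s - t) * B i j := by
      simp only [Matrix.add_apply, Matrix.smul_apply, smul_eq_mul]
      ring
    rw [h3, norm_mul]
    have h4 : ‖s - t‖ * C < δ := (lt_div_iff₀ hC0).1 hs
    exact lt_of_le_of_lt (mul_le_mul_of_nonneg_left (hC i j).le (norm_nonneg _)) h4)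
  have hdet : U.det ≠ 0 := by
    intro h0
    have := hU.2
    rw [h0, norm_zero] at this
    exact zero_ne_one this
  have hq : ∀ z, qf (A + s • B) z = qf (A + t • B) (U *ᵥ z) := by
    intro z
    rw [← hUG, qf_congr]
  constructor
  · intro m
    obtain ⟨c, -, hc1, hc⟩ := hGLO F D (Fin 4) U hdet
    have h3 := hc {z : Fin 4 → F | (∀ i, ‖z i‖ ≤ 1) ∧ ‖qf (A + t • B) z + 0‖ ≤ ‖D.p‖ ^ m}
    rw [hc1 hU, one_mul] at h3
    unfold V
    rw [← h3]
    congr 1
    ext z
    simp only [Set.mem_setOf_eq]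
    rw [hq z, box_iff U hU z]
  · intro hani z hz
    rw [hq z]
    refine hani _ fun h0 => hz ?_
    exact mulVec_inj U hdet (by rw [h0, Matrix.mulVec_zero])

end Pool.Agent.H1.N6D
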